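import Pool.Agent.Helper553.Uni.Fields

set_option autoImplicit false

open Pool.Agent.Helper553.Uni

namespace Pool.Agent.Results.MP_d5a5f5_ag.ImperfectCharTwo

theorem result :
    (∀ (k : Type) [Field k] [CharP k 2], (∃ τ : k, ¬ IsSquare τ) →
      Infinite k ∧ ∃ V : BiProj k 1 5, V.SmoothOfDim 2 ∧ V.GeomIrreducible ∧
        V.RationallyConnected ∧ (V.points k).Nonempty ∧ ¬ V.Unirational) ∧
    CharP (FractionRing (Polynomial (ZMod 2))) 2 ∧
      ∃ τ : FractionRing (Polynomial (ZMod 2)), ¬ IsSquare τ := by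
  refine ⟨?_, ?_, ratfunc_nonsquare⟩
  · intro k _ _ hk
    obtain ⟨τ, hτ⟩ := hk
    refine ⟨infinite_of_nonsquare τ hτ, surface (bet τ),
      smooth _ (bet_injective τ hτ) (bet_ne_zero τ hτ) (bet_ne_one τ hτ),
      irreducible_surface _ (bet_ne_zero τ hτ) (bet_ne_one τ hτ),
      rationallyConnected_surface _ (bet_ne_zero τ hτ) (bet_ne_one τ hτ),
      point_surface _,
      not_unirational_surface _ (bet_injective τ hτ) (bet_ne_zero τ hτ) (bet_ne_one τ hτ)
        (bet_cross τ hτ)⟩
  · exact charP_of_injective_algebraMap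
      (algebraMap (ZMod 2) (FractionRing (Polynomial (ZMod 2)))).injective 2

end Pool.Agent.Results.MP_d5a5f5_ag.ImperfectCharTwo
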